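import Pool.Agent.Work.MP_e487d8_al.Fin.Close
import Pool.Agent.Work.MP_e487d8_al.Pbw.Final
import Pool.Agent.Work.MP_e487d8_al.Cry.Facts
import Pool.Agent.Work.MP_e487d8_al.Rmat.Facts
import Pool.Agent.Work.MP_e487d8_al.Rmat.LH
import Pool.Agent.Work.MP_e487d8_al.Grad.Shift
import Pool.Agent.Work.MP_e487d8_al.Grad.Lam

/-! MP_e487d8_al: the final assembly. -/

set_option autoImplicit false

namespace Pool.Agent.KLR

/-- every maximal stably irreducible family of `w`-adapted irreducible modules is free on exactly
`m` atomic members -/
theorem final {K I : Type} [Field K] [Fintype I] [DecidableEq I] (D : Datum K I) : S_final D :=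
  S_final_of (cFacts (basis D)) (basis D) (rFacts (basis D)) (gFacts (basis D))
    (lFacts (basis D)) (grFacts (basis D))

end Pool.Agent.KLR
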