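import Pool.Agent.Work.MP_e487d8_al.Final
import Pool.Agent.Work.MP_e487d8_al.Fin.Bridge2
import Pool.Agent.Work.MP_e487d8_al.Fin.Oper2
import Pool.Agent.Work.MP_e487d8_al.Fin.Red

/-! MP_e487d8_al: the final theorem in the terms of `Stmt.lean`. -/

set_option autoImplicit false

namespace Pool.Agent.KLR.St

/-- the two kinds of graded modules are the same -/
theorem tFacts {K I : Type} [Field K] [Fintype I] [DecidableEq I] (D : Datum K I) : TFacts D where
  irr _ := GMod.irr_iff
  shift _ _ h := GMod.shiftIso_iff h.nontrivial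
  conv _ _ _ h := GMod.isConv_toG h
  conv' _ _ _ h h' := (GMod.isConv_iff h.nontrivial).2 h'
  adapted w _ := GMod.adapted_iff w
  surj Z := toG_ofG_iso Z

/-- every maximal stably irreducible family of `w`-adapted irreducible modules is free on exactly
`m` atomic members -/
theorem final {K I : Type} [Field K] [Fintype I] [DecidableEq I] (D : Datum K I)
    (w : List I) (hw : Reduced D.A w) (L : Set (GMod D)) (hL : IsMaxFamily w L) :
    IsGenerated w.length L ∧
      ∃ P : Set (GMod D), P.Finite ∧ P.ncard = w.length ∧ IsFreeOn P L := by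
  have hC := cFacts (basis D)
  have hb := basis D
  have hconv : S_conv D := fun m n M N _ _ _ _ _ _ _ _ hM hN => Conv.fdMod_chrQ hb hM hN
  have := Sm.isDomain_Gr hC hconv
  have := Sm.ufd_Gr hC hconv
  exact Bridge2.main (grFacts hb) (tFacts D)
    (Sm.uFacts hC hconv (rFacts hb) (gFacts hb) (lFacts hb)) w ((reduced_iff D.A w).1 hw) L hL

end Pool.Agent.KLR.St
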